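import Pool.Agent.Helper61.FN.Goals

/-!
# FN-AB3: the classes `{0,1}, {2,3}`
-/

set_option autoImplicit false

namespace Pool.Agent.Helper2.FN

open Finset Pool.Agent.Helper61.FN

theorem goalAB3 : G_AB3 := by
  intro F k _ _ _ _ _ n lam v M ξ h h0 h5 h2 h3 h4 h1
  have n0 := h.pos 0
  have n1 := h.pos 1
  have n2 := h.pos 2
  have n3 := h.pos 3
  have hM : M < v 1 := by
    have hs := h.sm
    rw [h0, h5, h2, h3, h4] at hs
    by_contra hc
    have hc' : (v 1 : F) ≤ M := by exact_mod_cast not_lt.1 hc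
    have hM0 : (0 : F) < M := by exact_mod_cast h.nrm.M_pos
    have h6 : (0 : F) < n 0 * n 1 + n 2 * n 3 := by positivity
    have h7 : (0 : F) < n 0 * n 2 + n 0 * n 3 + n 1 * n 2 + n 1 * n 3 := by positivity
    simp only [Int.cast_zero, mul_zero, zero_add, add_zero] at hs
    nlinarith [mul_pos hM0 h6, mul_le_mul_of_nonneg_left hc' h7.le]
  refine h.nrm.neg ![0, 1, 1, 1, 1, 0] ?_ fun j hj ↦ ?_
  · simp [Fin.sum_univ_succ, dA]
    positivity
  · rw [gr6]
    rw [pr6] at hj
    fin_cases j <;> simp [mA] at hj ⊢ <;> omega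

end Pool.Agent.Helper2.FN
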